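import Pool.Agent.Helper88.GM.Goals
import Pool.Agent.Helper77.RR.TS

/-! The second moment of a function given by labels, for points anywhere in `[1, z]`. -/

set_option autoImplicit false

open Finset Filter Topology

open scoped Classical

namespace Pool.Agent.Helper49.GM

open Pool.Agent.Helper88.PP (pr Rg om Sf SS uu vv ee LA VV QQ cost nc dd)

open Pool.Agent.Helper88.RR (gg ab TB WB nz wb DB Db VM GB)

open Pool.Agent.Helper88.GM

open Pool.Agent.Helper77.RR (VM_nonneg ab_nonneg expo)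

open Pool.Agent.Helper3.PP (om_nonneg VV_nonneg mem_SS mem_LA LA_sub sumBB)

theorem XI_nonneg (u v Q : ℕ) : 0 ≤ XI u v Q := by
  unfold XI
  positivity

/-- from sets of points to divisor label functions -/
theorem tlc {y z K D : ℕ} {P N : Finset ℕ} {δ Y : ℝ} (hδ : 0 ≤ δ) (hY : 0 ≤ Y) (hP : P ⊆ Icc 1 z)
    (h : ∀ B : Finset ℕ, B ⊆ Icc 1 z → B.card ≤ K → ∀ d : ℕ → ℕ, (∀ i ∈ B, Sf z (d i)) →
      ∏ i ∈ B, d i ≤ D →
      ((∀ i ∈ B, ∀ j ∈ B, i ≠ j → Nat.Coprime (d i) (d j)) →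
        |((N.filter (fun n => ∀ i ∈ B, d i ∣ n + i ∧ Rg y z (n + i))).card : ℝ)
          - Y * (gB y z B * ∏ i ∈ B, (1 / (d i : ℝ)))|
          ≤ δ * (Y * ∏ i ∈ B, (om y z / d i)))
      ∧ (¬ (∀ i ∈ B, ∀ j ∈ B, i ≠ j → Nat.Coprime (d i) (d j)) →
        (N.filter (fun n => ∀ i ∈ B, d i ∣ n + i ∧ Rg y z (n + i))).card = 0))
    (d : P → ℕ) (hd : ∀ i, d i = 0 ∨ Sf z (d i)) (hD : ∏ i, max 1 (d i) ≤ D)
    (hK : (univ.filter (fun i => d i ≠ 0)).card ≤ K) :
    ((∀ i j, i ≠ j → d i ≠ 0 → d j ≠ 0 → Nat.Coprime (d i) (d j)) →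
      |((N.filter (fun n => ∀ i, d i ≠ 0 → d i ∣ n + (i : ℕ) ∧
          Rg y z (n + (i : ℕ)))).card : ℝ)
        - Y * (gB y z ((univ.filter (fun i => d i ≠ 0)).image (fun i : P => (i : ℕ))) *
          ∏ i, (if d i = 0 then 1 else 1 / (d i : ℝ)))|
        ≤ δ * (Y * ∏ i, dd (8 * om y z) (d i)))
    ∧ (¬ (∀ i j, i ≠ j → d i ≠ 0 → d j ≠ 0 → Nat.Coprime (d i) (d j)) →
      (N.filter (fun n => ∀ i, d i ≠ 0 → d i ∣ n + (i : ℕ) ∧
        Rg y z (n + (i : ℕ)))).card = 0) := by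
  set B : Finset ℕ := (univ.filter (fun i => d i ≠ 0)).image (fun i : P => (i : ℕ)) with hB
  have hBm : B = (univ.filter (fun i => d i ≠ 0)).map
    ⟨fun i : P => (i : ℕ), Subtype.val_injective⟩ := by
    rw [hB, Finset.map_eq_image]
    rfl
  set d' : ℕ → ℕ := fun i => if h : i ∈ P then d ⟨i, h⟩ else 1 with hd'
  have hdd : ∀ i : P, d' i = d i := by
    intro i
    rw [hd']
    simp
  have hmem : ∀ i : ℕ, i ∈ B ↔ ∃ j : P, d j ≠ 0 ∧ (j : ℕ) = i := by
    intro i
    rw [hB, Finset.mem_image]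
    constructor
    · rintro ⟨j, hj, hj'⟩
      exact ⟨j, (Finset.mem_filter.mp hj).2, hj'⟩
    · rintro ⟨j, hj, hj'⟩
      exact ⟨j, Finset.mem_filter.mpr ⟨Finset.mem_univ _, hj⟩, hj'⟩
  have hall : ∀ p : ℕ → Prop, (∀ i ∈ B, p i) ↔ ∀ j : P, d j ≠ 0 → p (j : ℕ) := by
    intro p
    constructor
    · intro hp j hj
      exact hp _ ((hmem _).mpr ⟨j, hj, rfl⟩)
    · intro hp i hi
      obtain ⟨j, hj, rfl⟩ := (hmem _).mp hi
      exact hp j hj
  have hprod : ∀ (M : Type) [CommMonoid M] (f : ℕ → M), ∏ i ∈ B, f i =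
      ∏ i : P, if d i ≠ 0 then f i else 1 := by
    intro M _ f
    rw [hBm, Finset.prod_map, Finset.prod_filter]
    rfl
  have hcop : (∀ i ∈ B, ∀ j ∈ B, i ≠ j → Nat.Coprime (d' i) (d' j)) ↔
      (∀ i j, i ≠ j → d i ≠ 0 → d j ≠ 0 → Nat.Coprime (d i) (d j)) := by
    rw [hall]
    constructor
    · intro h1 i j hij hi hj
      have h2 := (hall _).mp (h1 i hi) j hj (fun h3 => hij (Subtype.ext h3))
      rwa [hdd, hdd] at h2
    · intro h1 i hi
      rw [hall]
      intro j hj hij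
      rw [hdd, hdd]
      exact h1 i j (fun h3 => hij (by rw [h3])) hi hj
  have hfil : N.filter (fun n => ∀ i ∈ B, d' i ∣ n + i ∧ Rg y z (n + i)) =
      N.filter (fun n => ∀ i, d i ≠ 0 → d i ∣ n + (i : ℕ) ∧ Rg y z (n + (i : ℕ))) := by
    refine Finset.filter_congr fun n _ => ?_
    rw [hall]
    refine forall_congr' fun j => ?_
    rw [hdd]
  have hpr : ∏ i ∈ B, (om y z / (d' i : ℝ)) ≤ ∏ i, dd (8 * om y z) (d i) := by
    rw [hprod]
    have ho := om_nonneg y z
    refine Finset.prod_le_prod (fun i _ => ?_) (fun i _ => ?_)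
    · split_ifs <;> positivity
    · rw [hdd]
      unfold dd
      by_cases hi : d i = 0
      · simp [hi]
      · rw [if_pos hi, if_neg hi]
        gcongr
        linarith only [ho]
  have hpr1 : ∏ i ∈ B, (1 / (d' i : ℝ)) = ∏ i, (if d i = 0 then 1 else 1 / (d i : ℝ)) := by
    rw [hprod]
    refine Finset.prod_congr rfl fun i _ => ?_
    rw [hdd]
    by_cases hi : d i = 0 <;> simp [hi]
  have hsub : B ⊆ Icc 1 z := by
    intro i hi
    obtain ⟨j, _, rfl⟩ := (hmem _).mp hi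
    exact hP j.2
  have hcard : B.card ≤ K := by
    rw [hBm, Finset.card_map]
    exact hK
  have hsf : ∀ i ∈ B, Sf z (d' i) := by
    rw [hall]
    intro j hj
    rw [hdd]
    exact (hd j).resolve_left hj
  have hle : ∏ i ∈ B, d' i ≤ D := by
    rw [hprod]
    refine le_of_eq_of_le (Finset.prod_congr rfl fun i _ => ?_) hD
    rw [hdd]
    by_cases hi : d i = 0
    · simp [hi]
    · rw [if_pos hi]
      exact (max_eq_right (by omega)).symm
  have key := h B hsub hcard d' hsf hle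
  rw [hcop, hfil, hpr1] at key
  refine ⟨fun hc => (key.1 hc).trans ?_, key.2⟩
  exact mul_le_mul_of_nonneg_left (mul_le_mul_of_nonneg_left hpr hY) hδ

theorem Sr_x {E z x y : ℕ} (h : Sr E z x y) : (E : ℝ) * Real.log z ≤ Real.log x := by
  obtain ⟨h1, h3, _⟩ := h
  have hz : (0 : ℝ) < z := lt_of_lt_of_le (Real.exp_pos _) h1
  have h7 : ((z : ℝ)) ^ E ≤ x := by exact_mod_cast h3
  have h8 := Real.log_le_log (pow_pos hz E) h7
  rwa [Real.log_pow] at h8

theorem Sr_y {E z x y : ℕ} (h : Sr E z x y) : (E : ℝ) ^ 2 ≤ y := by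
  have h0 := Sr_x h
  obtain ⟨h1, h3, _, h5, _⟩ := h
  refine le_trans ?_ h5
  refine le_trans ?_ h0
  have h2 : (E : ℝ) ≤ Real.log z := by
    have := Real.log_le_log (Real.exp_pos _) h1
    rwa [Real.log_exp] at this
  calc (E : ℝ) ^ 2 = E * E := by ring
    _ ≤ E * Real.log z := mul_le_mul_of_nonneg_left h2 (Nat.cast_nonneg _)

theorem ts (h0 : StmtGU) (h1 : StmtTL) (h2 : StmtTR) (h3 : Pool.Agent.Helper88.RR.StmtCB) :
    StmtTS := by
  obtain ⟨c, hc, ETL, hTL⟩ := h1
  obtain ⟨_, C', _, hC', h4⟩ := Pool.Agent.Helper24.PP.ma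
  obtain ⟨C, hC, hCB⟩ := h3
  set c0 : ℝ := min c 1 / 2 with hc0
  have hc0p : 0 < c0 := by
    rw [hc0]
    have := lt_min hc one_pos
    linarith
  have hc1 : 2 * c0 ≤ c := by
    rw [hc0]
    have := min_le_left c 1
    linarith
  have hc2 : 2 * c0 ≤ 1 := by
    rw [hc0]
    have := min_le_right c 1
    linarith
  obtain ⟨Ee, hEe⟩ := expo c0 (8 * (3 * C ^ 2 * C' ^ 3)) hc0p (by positivity)
  refine ⟨c0, hc0p, max ETL (max Ee 64), fun E z x y hE hS u v Q b hIn m q K hm hqm hV hK P hP hPA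
    T cc F hF hT1 hT2 hT3 hT4 hT5 => ?_⟩
  have hE1 : ETL ≤ E := (le_max_left _ _).trans hE
  have hE3 : Ee ≤ E := ((le_max_left _ _).trans (le_max_right _ _)).trans hE
  have hE4 : 64 ≤ E := ((le_max_right _ _).trans (le_max_right _ _)).trans hE
  have hM1 : 1 ≤ E / 16 := by omega
  have hEpos : (64 : ℝ) ≤ E := by exact_mod_cast hE4
  have hTL := hTL E z x y hE1 hS u v Q b hIn
  -- `z`
  have hzE : Real.exp E ≤ z := hS.1
  have hzE' : (E : ℝ) + 1 ≤ z := (Real.add_one_le_exp _).trans hzE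
  have hzE2 : E + 1 ≤ z := by exact_mod_cast hzE'
  have hz3 : 2 ≤ z := by omega
  have hz0 : 1 ≤ z := by omega
  have hzp : (0 : ℝ) < z := by linarith only [hc0p, hc2, hEpos, hzE']
  -- `y`
  have hy2 := Sr_y hS
  have hK2 : (2 * K) ^ 2 ≤ E := by
    rcases le_total 4 K with h | h
    · calc (2 * K) ^ 2 = 4 * K ^ 2 := by ring
        _ ≤ K * K ^ 2 := Nat.mul_le_mul_right _ h
        _ = K ^ 3 := by ring
        _ ≤ E := hK
    · have h5 : K ^ 2 ≤ 4 ^ 2 := Nat.pow_le_pow_left h 2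
      calc (2 * K) ^ 2 = 4 * K ^ 2 := by ring
        _ ≤ 4 * 4 ^ 2 := Nat.mul_le_mul_left _ h5
        _ ≤ E := by omega
  have hKE : 2 * K ≤ E := by nlinarith only [hE4, hK2]
  have hyE : E * E ≤ y := by
    have : ((E * E : ℕ) : ℝ) ≤ y := by
      push_cast
      nlinarith only [hy2]
    exact_mod_cast this
  have hy4 : 4 * (2 * K) ≤ y := by nlinarith only [hE4, hKE, hyE]
  have hy1 : 1 ≤ y := by nlinarith only [hE4, hyE]
  have ho := om_nonneg y z
  have hinj : Function.Injective (fun i : P => (i : ℕ)) := Subtype.val_injective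
  have hgg : ∀ B : Finset P, B.card ≤ 2 * K →
      0 ≤ gB y z (B.image (fun i : P => (i : ℕ))) ∧
        gB y z (B.image (fun i : P => (i : ℕ))) ≤ (8 * om y z) ^ B.card := by
    intro B hB
    have hcard : (B.image (fun i : P => (i : ℕ))).card = B.card :=
      Finset.card_image_of_injective B hinj
    have h5 := h0 y z (B.image (fun i : P => (i : ℕ))) hy1 (by
        intro i hi
        obtain ⟨j, _, rfl⟩ := Finset.mem_image.mp hi
        exact hP j.2) (by rw [hcard]; omega) (by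
        rw [hcard]
        have e1 : (B.card : ℝ) ^ 2 ≤ E := by
          have : B.card ^ 2 ≤ E := (Nat.pow_le_pow_left hB 2).trans hK2
          exact_mod_cast this
        have e2 : 0 ≤ Real.log z := Real.log_nonneg (by linarith only [hc0p, hc2, hEpos, hzE'])
        calc (B.card : ℝ) ^ 2 * Real.log z ≤ E * Real.log z := mul_le_mul_of_nonneg_right e1 e2
          _ ≤ Real.log x := Sr_x hS
          _ ≤ y := hS.2.2.2.1)
    rw [hcard] at h5
    exact ⟨h5.1, h5.2.2⟩
  have hMz : E / 16 ≤ z := by omega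
  have hCB := hCB m q (E / 16) z hm hz3 hMz hV
  have hKsq : (36 : ℝ) * (K : ℝ) ^ 2 ≤ 36 * E := by
    have h5 : (K : ℝ) ^ 2 ≤ E := by
      have : K ^ 2 ≤ E := by nlinarith only [hE4, hK2]
      exact_mod_cast this
    linarith only [h5]
  -- constants
  set Lam : ℝ := 8 * (3 * C ^ 2 * (C' * ((2 * (E / 16) : ℕ) : ℝ)) ^ 3) with hLam
  have hLam0 : 0 ≤ Lam := by positivity
  have hLamE : Lam ≤ 8 * (3 * C ^ 2 * C' ^ 3) * (E : ℝ) ^ 3 := by
    rw [hLam]
    have h5 : ((2 * (E / 16) : ℕ) : ℝ) ≤ E := by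
      have : 2 * (E / 16) ≤ E := by omega
      exact_mod_cast this
    calc 8 * (3 * C ^ 2 * (C' * ((2 * (E / 16) : ℕ) : ℝ)) ^ 3)
        ≤ 8 * (3 * C ^ 2 * (C' * (E : ℝ)) ^ 3) := by
          gcongr
      _ = 8 * (3 * C ^ 2 * C' ^ 3) * (E : ℝ) ^ 3 := by ring
  set G : ℝ := (1 + Lam) * (1 + (E : ℝ) ^ 2 * Lam) ^ (2 * K) with hG
  have hG0 : 0 ≤ G := by positivity
  have hGE : (1 + 36 * (E : ℝ)) * G ≤ Real.exp (c0 * E) := by
    refine le_trans ?_ (hEe E K hE3 hK)
    rw [hG]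
    gcongr
  have hfin : (Real.exp (-(c * E)) + 9 * ((2 * K : ℕ) : ℝ) ^ 2 / z) * G
      ≤ Real.exp (-(c0 * E)) := by
    have h5 : Real.exp (-(c * E)) ≤ Real.exp (-(2 * c0 * E)) := by
      refine Real.exp_le_exp.mpr ?_
      have := mul_le_mul_of_nonneg_right hc1 (by linarith only [hc0p, hc2, hEpos] : (0 : ℝ) ≤ E)
      linarith only [this]
    have h6 : 9 * ((2 * K : ℕ) : ℝ) ^ 2 / z ≤ 36 * E * Real.exp (-(2 * c0 * E)) := by
      have h7 : 9 * ((2 * K : ℕ) : ℝ) ^ 2 = 36 * (K : ℝ) ^ 2 := by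
        push_cast
        ring
      rw [h7, div_le_iff₀ hzp]
      have h8 : (1 : ℝ) ≤ Real.exp (-(2 * c0 * E)) * z := by
        calc (1 : ℝ) = Real.exp (-(E : ℝ)) * Real.exp E := by
              rw [← Real.exp_add, neg_add_cancel, Real.exp_zero]
          _ ≤ Real.exp (-(2 * c0 * E)) * z := by
              refine mul_le_mul ?_ hzE (Real.exp_pos _).le (Real.exp_pos _).le
              refine Real.exp_le_exp.mpr ?_
              have := mul_le_mul_of_nonneg_right hc2 (by linarith only [hc0p, hc2, hEpos] : (0 : ℝ) ≤ E)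
              linarith only [this]
      calc 36 * (K : ℝ) ^ 2 ≤ 36 * E := hKsq
        _ = 36 * E * 1 := by ring
        _ ≤ 36 * E * (Real.exp (-(2 * c0 * E)) * z) :=
            mul_le_mul_of_nonneg_left h8 (by positivity)
        _ = 36 * E * Real.exp (-(2 * c0 * E)) * z := by ring
    calc (Real.exp (-(c * E)) + 9 * ((2 * K : ℕ) : ℝ) ^ 2 / z) * G
        ≤ (Real.exp (-(2 * c0 * E)) + 36 * E * Real.exp (-(2 * c0 * E))) * G :=
          mul_le_mul_of_nonneg_right (add_le_add h5 h6) hG0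
      _ = Real.exp (-(2 * c0 * E)) * ((1 + 36 * (E : ℝ)) * G) := by ring
      _ ≤ Real.exp (-(2 * c0 * E)) * Real.exp (c0 * E) :=
          mul_le_mul_of_nonneg_left hGE (Real.exp_pos _).le
      _ = Real.exp (-(c0 * E)) := by
          rw [← Real.exp_add]
          congr 1
          ring
  -- the sets
  set al : P → ℕ → ℝ := fun i r =>
    if i ∈ F then (if r ∈ SS z (z ^ (E / 16)) then 1 / (VM (E / 16) z * (Nat.totient r : ℝ))
      else 0)
    else (if r = 0 then 1 else if r ∈ LA z m (q * m) then ab m q z r else 0) with hal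
  set BB : Finset (Finset P) :=
    (univ : Finset (Finset P)).filter (fun B => F ⊆ B ∧ B.card ≤ 2 * K) with hBB
  have hSS0 : ∀ r, r ∈ SS z (z ^ (E / 16)) → r ≠ 0 := by
    intro r hr
    have := (mem_SS.mp hr).1.1
    omega
  have hLA0 : ∀ r, r ∈ LA z m (q * m) → r ≠ 0 := fun r hr =>
    hSS0 r (LA_sub hz0 hqm hr)
  have hlab : ∀ r ∈ T, ∀ i, r i = 0 ∨ r i ∈ SS z (z ^ (E / 16)) := by
    intro r hr i
    by_cases hi : i ∈ F
    · exact Or.inr (hT2 r hr i hi)
    · rcases hT1 r hr i hi with h5 | h5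
      · exact Or.inl h5
      · exact Or.inr (LA_sub hz0 hqm h5)
  have hV1 := VM_nonneg (E / 16) z
  have hXI := XI_nonneg u v Q
  have key := h2 P (fun i => (i : ℕ)) y z (z ^ (E / 16)) (z ^ (E / 4)) (2 * K) (NI u v Q b)
    (XI u v Q) (8 * om y z) (Real.exp (-(c * E))) C
    (fun B : Finset P => gB y z (B.image (fun i : P => (i : ℕ)))) T cc al BB hz3 hXI
    (by positivity) (Real.exp_pos _).le hC (fun B hB => hgg B (by
      rw [hBB, Finset.mem_filter] at hB
      exact hB.2.2)) hlab ?_ ?_ ?_ ?_ ?_ ?_ ?_ ?_ ?_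
  · refine key.trans ?_
    have hX2 : (z ^ (E / 16)) ^ 2 = z ^ (2 * (E / 16)) := by rw [← pow_mul, mul_comm]
    have hMA := (h4 z (2 * (E / 16)) hz3 (by omega)).2.2
    rw [← hX2] at hMA
    set w : ℝ := 3 * C ^ 2 * ∑ e ∈ SS z ((z ^ (E / 16)) ^ 2), (3 : ℝ) ^ e.primeFactors.card / e
      with hw
    have hw0 : 0 ≤ w := by positivity
    have hwL : 8 * w ≤ Lam := by
      rw [hw, hLam]
      have := mul_le_mul_of_nonneg_left hMA (by positivity : (0 : ℝ) ≤ 3 * C ^ 2)
      linarith only [this]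
    have hsum := sumBB F (2 * K) (8 * om y z * w) (by positivity)
    have hnu : (Fintype.card P : ℝ) * (8 * om y z * w) ≤ (E : ℝ) ^ 2 * Lam := by
      rw [Fintype.card_coe]
      calc (P.card : ℝ) * (8 * om y z * w) = (P.card : ℝ) * om y z * (8 * w) := by ring
        _ ≤ (E : ℝ) ^ 2 * Lam := mul_le_mul hPA hwL (by positivity) (by positivity)
    have hpw : (8 * om y z * w) ^ F.card ≤ om y z ^ F.card * (1 + Lam) := by
      have e1 : 8 * om y z * w = om y z * (8 * w) := by ring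
      rw [e1, mul_pow]
      refine mul_le_mul_of_nonneg_left ?_ (by positivity)
      rcases Nat.le_one_iff_eq_zero_or_eq_one.mp hF with h5 | h5 <;> rw [h5]
      · simp [hLam0]
      · rw [pow_one]
        linarith only [hc0p, hc2, hwL]
    have hsum2 : ∑ B ∈ BB, (8 * om y z * w) ^ B.card ≤ om y z ^ F.card * G := by
      refine hsum.trans ?_
      have h8 : om y z ^ F.card * G = om y z ^ F.card * (1 + Lam) *
          (1 + (E : ℝ) ^ 2 * Lam) ^ (2 * K) := by
        rw [hG]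
        ring
      rw [h8]
      refine mul_le_mul hpw ?_ (by positivity) (by positivity)
      exact pow_le_pow_left₀ (by positivity) (by linarith only [hnu]) _
    have hδ : 0 ≤ Real.exp (-(c * E)) + 9 * ((2 * K : ℕ) : ℝ) ^ 2 / z := by positivity
    calc XI u v Q * (Real.exp (-(c * E)) + 9 * ((2 * K : ℕ) : ℝ) ^ 2 / z) *
          ∑ B ∈ BB, (8 * om y z * w) ^ B.card
        ≤ XI u v Q * (Real.exp (-(c * E)) + 9 * ((2 * K : ℕ) : ℝ) ^ 2 / z) *
          (om y z ^ F.card * G) :=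
          mul_le_mul_of_nonneg_left hsum2 (mul_nonneg hXI hδ)
      _ = ((Real.exp (-(c * E)) + 9 * ((2 * K : ℕ) : ℝ) ^ 2 / z) * G) *
          (om y z ^ F.card * XI u v Q) := by ring
      _ ≤ Real.exp (-(c0 * E)) * (om y z ^ F.card * XI u v Q) :=
          mul_le_mul_of_nonneg_right hfin (mul_nonneg (by positivity) hXI)
      _ = Real.exp (-(c0 * E)) * om y z ^ F.card * XI u v Q := by ring
  · -- a label `1` only occurs on `F`
    intro r hr s hs i hi
    by_cases hiF : i ∈ F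
    · exact hSS0 _ (hT2 s hs i hiF)
    · exfalso
      rcases hT1 r hr i hiF with h5 | h5
      · omega
      · have h6 := (mem_LA.mp h5).2
        have h7 : z ^ 1 ≤ z ^ m := Nat.pow_le_pow_right hz0 hm
        rw [pow_one] at h7
        omega
  · -- size
    intro r hr
    calc (∏ i, max 1 (r i)) ^ 2 ≤ (z ^ (2 * (E / 16))) ^ 2 := Nat.pow_le_pow_left (hT4 r hr) 2
      _ = z ^ (2 * (E / 16) * 2) := by rw [← pow_mul]
      _ ≤ z ^ (E / 4) := Nat.pow_le_pow_right hz0 (by omega)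
  · -- supports
    intro r hr s hs
    rw [hBB, Finset.mem_filter]
    refine ⟨Finset.mem_univ _, ?_, ?_⟩
    · intro i hi
      exact Finset.mem_filter.mpr ⟨Finset.mem_univ _, Or.inl (hSS0 _ (hT2 r hr i hi))⟩
    · rw [Finset.filter_or]
      refine (Finset.card_union_le _ _).trans ?_
      have h5 := hT3 r hr
      have h6 := hT3 s hs
      unfold nz at h5 h6
      omega
  · intro B hB
    rw [hBB, Finset.mem_filter] at hB
    exact hB.2.2
  · -- nonnegativity
    intro i r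
    rw [hal]
    have h5 := ab_nonneg m q z r
    simp only
    split_ifs <;> positivity
  · intro i
    rw [hal]
    simp only
    by_cases hi : i ∈ F
    · rw [if_pos hi, if_neg (fun h5 => hSS0 0 h5 rfl)]
      norm_num
    · rw [if_neg hi]
      simp
  · -- the coefficients
    intro r hr
    refine (hT5 r hr).trans (le_of_eq (Finset.prod_congr rfl fun i _ => ?_))
    rw [hal]
    simp only
    by_cases hi : i ∈ F
    · rw [if_pos hi, if_pos hi, if_pos (hT2 r hr i hi)]
    · rw [if_neg hi, if_neg hi]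
      rcases hT1 r hr i hi with h5 | h5
      · rw [if_pos h5, if_pos h5]
      · rw [if_neg (hLA0 _ h5), if_neg (hLA0 _ h5), if_pos h5]
  · -- divisor sums
    intro i d hd
    obtain ⟨hc1, hc2⟩ := hCB d hd
    by_cases hi : i ∈ F
    · have h5 : ∑ r ∈ (SS z (z ^ (E / 16))).filter (fun r => d ∣ r), al i r
          = 1 / VM (E / 16) z * ∑ r ∈ (SS z (z ^ (E / 16))).filter (fun r => d ∣ r),
            1 / (Nat.totient r : ℝ) := by
        rw [Finset.mul_sum]
        refine Finset.sum_congr rfl fun r hr => ?_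
        rw [hal]
        simp only
        rw [if_pos hi, if_pos (Finset.mem_filter.mp hr).1, one_div_mul_one_div]
      rw [h5]
      have h6 : ∑ r ∈ SS z (z ^ (E / 16)), 1 / (Nat.totient r : ℝ) = VM (E / 16) z := rfl
      rw [h6] at hc2
      rcases hV1.eq_or_lt with h7 | h7
      · rw [← h7]
        simp
        linarith
      · calc (d : ℝ) * (1 / VM (E / 16) z * ∑ r ∈ (SS z (z ^ (E / 16))).filter (fun r => d ∣ r),
            1 / (Nat.totient r : ℝ))
            = ((d : ℝ) * ∑ r ∈ (SS z (z ^ (E / 16))).filter (fun r => d ∣ r),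
            1 / (Nat.totient r : ℝ)) / VM (E / 16) z := by ring
          _ ≤ C * VM (E / 16) z / VM (E / 16) z := by gcongr
          _ = C := by field_simp
    · refine le_of_eq_of_le ?_ hc1
      congr 1
      have h5 : ∀ r ∈ (SS z (z ^ (E / 16))).filter (fun r => d ∣ r), al i r =
          if r ∈ LA z m (q * m) then ab m q z r else 0 := by
        intro r hr
        rw [hal]
        simp only
        rw [if_neg hi, if_neg (hSS0 r (Finset.mem_filter.mp hr).1)]
      rw [Finset.sum_congr rfl h5, ← Finset.sum_filter]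
      refine Finset.sum_congr ?_ fun _ _ => rfl
      ext r
      simp only [Finset.mem_filter]
      constructor
      · rintro ⟨⟨_, h7⟩, h8⟩
        exact ⟨h8, h7⟩
      · rintro ⟨h7, h8⟩
        exact ⟨⟨LA_sub hz0 hqm h7, h8⟩, h7⟩
  · -- counting
    intro d hd hD hdB
    rw [hBB, Finset.mem_filter] at hdB
    refine tlc (Real.exp_pos _).le hXI hP (fun B hB hBK d hd hD => ?_) d hd hD hdB.2.2
    exact hTL B hB ((Nat.pow_le_pow_left hBK 2).trans hK2) d hd hD

end Pool.Agent.Helper49.GM
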